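import Pool.Agent.H75.L.W662.CB.Stmts

/-!
# Project CB: part A8c
-/

set_option autoImplicit false

open MeasureTheory Filter Topology Complex
open scoped InnerProductSpace ENNReal

namespace Pool.Agent.W797.CB

open Pool.Agent.W662.CB

variable {H : Type} [NormedAddCommGroup H] [InnerProductSpace ℂ H] [CompleteSpace H]

/-- the adjoint family -/
noncomputable def adjF (G : ℂ → H →L[ℂ] H) (z : ℂ) : H →L[ℂ] H := star (G (starRingEnd ℂ z))

theorem isAn_adjF {M : VonNeumannAlgebra H} {U : ℝ → H →L[ℂ] H} {G : ℂ → H →L[ℂ] H}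
    (hG : IsAn M U G) : IsAn M U (adjF G) where
  mem z := star_mem (hG.mem _)
  diff v := hG.diff' v
  diff' v := by
    have : (fun z : ℂ => star (adjF G (starRingEnd ℂ z)) v) = fun z => G z v := by
      funext z
      unfold adjF
      rw [star_star, Complex.conj_conj]
    rw [this]
    exact hG.diff v
  ext t := by
    unfold adjF
    rw [Complex.conj_ofReal, map_zero, hG.ext t]
    unfold sgm
    simp only [star_mul, star_star, mul_assoc]
  bdd R := by
    obtain ⟨C, hC⟩ := hG.bdd R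
    refine ⟨C, fun z hz => ?_⟩
    unfold adjF
    rw [norm_star]
    apply hC
    rw [Complex.conj_im, abs_neg]
    exact hz

theorem hasDeriv_inner {a b : ℂ → H} (ha : Differentiable ℂ a) (hb : Differentiable ℂ b) :
    Differentiable ℂ fun z : ℂ => ⟪a (starRingEnd ℂ z), b z⟫_ℂ := by
  intro z
  have h1 : HasDerivAt (fun z : ℂ => innerSL ℂ (a (starRingEnd ℂ z)))
      (innerSL ℂ (deriv a (starRingEnd ℂ z))) z := by
    have h2 := (ha (starRingEnd ℂ z)).hasDerivAt
    rw [hasDerivAt_iff_isLittleO] at h2 ⊢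
    have hc : Tendsto (fun w : ℂ => starRingEnd ℂ w) (𝓝 z) (𝓝 (starRingEnd ℂ z)) :=
      Complex.continuous_conj.tendsto z
    have h3 := h2.comp_tendsto hc
    rw [← Asymptotics.isLittleO_norm_norm] at h3 ⊢
    refine h3.congr ?_ ?_
    · intro w
      simp only [Function.comp]
      rw [← innerSL_apply_norm (𝕜 := ℂ)]
      congr 1
      simp only [map_sub]
      congr 1
      ext v
      simp [inner_smul_left]
    · intro w
      simp only [Function.comp]
      rw [← map_sub, Complex.norm_conj]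
  have h4 := h1.clm_apply (hb z).hasDerivAt
  exact h4.differentiableAt

theorem a8c (h2 : S_A2) : S_A8c := by
  intro H _ _ _ M N ξ U E hNM hU hE hφ P hP hPE F G hF hG t
  set Φ : ℂ → ℂ := fun z => ⟪G (starRingEnd ℂ z) ξ, P (F z ξ)⟫_ℂ with hΦ
  have hG' := isAn_adjF hG
  have hdiff : Differentiable ℂ Φ :=
    hasDeriv_inner (hG.diff ξ) (P.differentiable.comp (hF.diff ξ))
  have hEM : ∀ x ∈ M, E x ∈ M := fun x hx => hNM _ (hE.mem x hx)
  have hΦ' : ∀ z, Φ z = vst ξ (adjF G z * E (F z)) := by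
    intro z
    simp only [hΦ]
    rw [hPE _ (hF.mem z)]
    unfold vst adjF
    rw [ContinuousLinearMap.mul_apply, ContinuousLinearMap.star_eq_adjoint,
      ContinuousLinearMap.adjoint_inner_right]
  -- moving the expectation
  have e1 : ∀ b x : H →L[ℂ] H, b ∈ M → x ∈ M → vst ξ (b * E x) = vst ξ (E b * E x) := by
    intro b x hb hx
    rw [← hφ (b * E x) (mul_mem hb (hEM x hx)), hE.right (E x) b (hE.mem x hx) hb]
  have e2 : ∀ b x : H →L[ℂ] H, b ∈ M → x ∈ M → vst ξ (E b * x) = vst ξ (E b * E x) := by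
    intro b x hb hx
    rw [← hφ (E b * x) (mul_mem (hEM b hb) hx), hE.left (E b) x (hE.mem b hb) hx]
  have hper : ∀ z, Φ (z - I) = Φ z := by
    intro z
    have m1 := hG'.mem (z - I)
    have m2 := hF.mem (z - I)
    rw [hΦ', hΦ', e1 _ _ m1 m2, ← e2 _ _ m1 m2]
    rw [← h2 H M ξ U hU F hF z _ (hEM _ m1)]
    rw [e1 _ _ (hF.mem z) m1, ← e2 _ _ (hF.mem z) m1]
    rw [← h2 H M ξ U hU _ hG' z _ (hEM _ (hF.mem z))]
  have hper' : Function.Periodic Φ I := by
    intro z
    have := hper (z + I)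
    rw [add_sub_cancel_right] at this
    exact this.symm
  obtain ⟨C1, hC1⟩ := hG.bdd 1
  obtain ⟨C2, hC2⟩ := hF.bdd 1
  have hb : Bornology.IsBounded (Set.range Φ) := by
    rw [isBounded_iff_forall_norm_le]
    refine ⟨(C1 * ‖ξ‖) * (‖P‖ * (C2 * ‖ξ‖)), ?_⟩
    rintro _ ⟨z, rfl⟩
    have h3 : Φ z = Φ (z + ((-⌊z.im⌋ : ℤ) : ℂ) * I) := ((hper'.int_mul (-⌊z.im⌋)) z).symm
    rw [h3]
    set w := z + ((-⌊z.im⌋ : ℤ) : ℂ) * I with hw
    have him : w.im = Int.fract z.im := by
      rw [hw, Complex.add_im, Complex.mul_im, Complex.I_im, Complex.I_re, Complex.intCast_re,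
        Complex.intCast_im, mul_one, mul_zero, add_zero, Int.cast_neg, ← Int.self_sub_floor]
      ring
    have hwb : |w.im| ≤ 1 := by
      rw [him, abs_of_nonneg (Int.fract_nonneg _)]
      exact (Int.fract_lt_one _).le
    have hwb' : |(starRingEnd ℂ w).im| ≤ 1 := by
      rw [Complex.conj_im, abs_neg]
      exact hwb
    have g1 : ‖G (starRingEnd ℂ w) ξ‖ ≤ C1 * ‖ξ‖ :=
      (ContinuousLinearMap.le_opNorm _ _).trans
        (mul_le_mul_of_nonneg_right (hC1 _ hwb') (norm_nonneg _))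
    have g2 : ‖P (F w ξ)‖ ≤ ‖P‖ * (C2 * ‖ξ‖) :=
      (ContinuousLinearMap.le_opNorm _ _).trans (mul_le_mul_of_nonneg_left
        ((ContinuousLinearMap.le_opNorm _ _).trans
          (mul_le_mul_of_nonneg_right (hC2 _ hwb) (norm_nonneg _))) (norm_nonneg _))
    calc ‖Φ w‖ ≤ ‖G (starRingEnd ℂ w) ξ‖ * ‖P (F w ξ)‖ := norm_inner_le_norm _ _
      _ ≤ (C1 * ‖ξ‖) * (‖P‖ * (C2 * ‖ξ‖)) :=
        mul_le_mul g1 g2 (norm_nonneg _) ((norm_nonneg _).trans g1)
  have hfin := hdiff.apply_eq_apply_of_bounded hb (t : ℂ) 0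
  simp only [hΦ] at hfin
  rw [Complex.conj_ofReal, map_zero] at hfin
  exact hfin

end Pool.Agent.W797.CB
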